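import Pool.Agent.helper80.EN.Spec2

/-!
# Row ETR: groups acting on trees
-/

set_option autoImplicit false

namespace Pool.Agent.helper80.EN

open Subgroup

universe u

/-- the stabiliser in a subgroup maps into the stabiliser -/
def ETR_f {G V : Type u} [Group G] [MulAction G V] (B : Subgroup G) (v : V) :
    MulAction.stabilizer B v →* MulAction.stabilizer G v where
  toFun x := ⟨((x : B) : G), x.2⟩
  map_one' := rfl
  map_mul' _ _ := rfl

theorem ETR_f_inj {G V : Type u} [Group G] [MulAction G V] (B : Subgroup G) (v : V) :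
    Function.Injective (ETR_f B v) := by
  intro x y h
  have h1 : ((x : B) : G) = ((y : B) : G) :=
    congrArg (fun t : MulAction.stabilizer G v => (t : G)) h
  exact Subtype.ext (Subtype.ext h1)

/-- the same for two points -/
def ETR_g {G V : Type u} [Group G] [MulAction G V] (B : Subgroup G) (u v : V) :
    (MulAction.stabilizer B u ⊓ MulAction.stabilizer B v : Subgroup B) →*
      (MulAction.stabilizer G u ⊓ MulAction.stabilizer G v : Subgroup G) where
  toFun x := ⟨((x : B) : G), x.2⟩
  map_one' := rfl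
  map_mul' _ _ := rfl

theorem ETR_g_inj {G V : Type u} [Group G] [MulAction G V] (B : Subgroup G) (u v : V) :
    Function.Injective (ETR_g B u v) := by
  intro x y h
  have h1 : ((x : B) : G) = ((y : B) : G) :=
    congrArg (fun t : (MulAction.stabilizer G u ⊓ MulAction.stabilizer G v : Subgroup G) =>
      (t : G)) h
  exact Subtype.ext (Subtype.ext h1)

theorem ETR (hTAC : TAC_stmt.{u}) (hTEG : TEG_stmt.{u}) (hTHY : THY_stmt.{u}) (hESB : ESB_stmt.{u})
    (hMAJ : MAJ_stmt.{u}) : ETR_stmt.{u} := by
  intro G V _ _ Γ hΓ hv he B a ha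
  obtain ⟨-, hB, hd⟩ := hTAC G V Γ hΓ
  have hTB := hB B
  obtain ⟨hAct, -, -⟩ := hTAC B V Γ hTB
  have : Nonempty V := hΓ.tree.connected.nonempty
  by_cases hell : Ell V a
  · exact hTEG B V Γ.dist hAct (fun v => hESB.2.1 _ _ (ETR_f B v) (ETR_f_inj B v) (hv v)) a ha hell
  · refine hMAJ B (hTHY B V Γ.dist hAct (fun u v huv => ?_) a ha hell) a ha
    exact InL.sub (ETR_g B u v) (ETR_g_inj B u v) (he u v ((hd u v).1 huv))

end Pool.Agent.helper80.EN
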