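import Pool.Agent.helper80.EN.Spec2

/-!
# Row RPJ: reflections of a line and invariant convex sets
-/

set_option autoImplicit false

namespace Pool.Agent.helper80.EN

open Subgroup

universe u

theorem RPJ (hTG : TG_stmt.{u}) (hLNA : LNA_stmt.{u}) : RPJ_stmt.{u} := by
  intro G V _ _ d hd a f c hf hac A' hA' hne hinv
  have htm := hd.tm
  obtain ⟨-, -, hTG3, -, -, -, hTG7, -⟩ := hTG V d htm
  obtain ⟨hL1, -, -⟩ := hLNA V d htm
  obtain ⟨x, hx⟩ := hne
  obtain ⟨m, ⟨k, rfl⟩, hm⟩ := hTG7 (Set.range f) (hL1 f hf) ⟨f 0, 0, rfl⟩ x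
  obtain ⟨j, rfl⟩ : ∃ j, k = c + j := ⟨k - c, by ring⟩
  by_cases hj : j = 0
  · subst hj
    refine ⟨x, hx, fun n => ?_⟩
    have := hm (f n) ⟨n, rfl⟩
    rwa [add_zero] at this
  · have hfc : f c ∈ A' := by
      refine hA' x hx (a • x) (hinv x hx) (f c) ?_
      have h1 : Bt d x (f (c + j)) (f (c - j)) := hm _ ⟨_, rfl⟩
      have h2 : Bt d x (f (c + j)) (f c) := hm _ ⟨_, rfl⟩
      have h0 : a • f c = f c := by
        have := hac 0
        rwa [add_zero, sub_zero] at this
      have e : a • f (c - j) = f (c + j) := by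
        have := hac (-j)
        rwa [sub_neg_eq_add] at this
      have d1 : d (a • x) (f (c - j)) = d x (f (c + j)) := by rw [← hac j, hd.iso]
      have d2 : d (a • x) (f (c + j)) = d x (f (c - j)) := by rw [← e, hd.iso]
      have d3 : d (a • x) (f c) = d x (f c) := by
        have := hd.iso a x (f c)
        rwa [h0] at this
      have p1 : (d (f (c + j)) (f (c - j)) : ℤ) = 2 * |j| := by
        rw [hf]
        have : c + j - (c - j) = 2 * j := by ring
        rw [this, abs_mul]
        rfl
      have p2 : (d (f (c + j)) (f c) : ℤ) = |j| := by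
        rw [hf]
        congr 1
        ring
      have hJ : 0 < |j| := abs_pos.2 hj
      have hyz : f (c + j) ≠ f (c - j) := by
        intro h
        have := (htm.eq (f (c + j)) (f (c - j))).2 h
        rw [this] at p1
        omega
      have s1 := htm.symm (a • x) (f (c - j))
      have s2 := htm.symm (a • x) (f (c + j))
      have s3 := htm.symm (a • x) (f c)
      have s4 := htm.symm (f (c + j)) (f (c - j))
      have h3 : Bt d (f (c + j)) (f (c - j)) (a • x) := by
        unfold Bt at h1 ⊢
        omega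
      obtain ⟨-, -, h4⟩ := hTG3 x (f (c + j)) (f (c - j)) (a • x) h1 h3 hyz
      unfold Bt at h1 h2 h3 ⊢
      omega
    refine ⟨f c, hfc, fun n => ?_⟩
    unfold Bt
    rw [(htm.eq (f c) (f c)).2 rfl, Nat.zero_add]

end Pool.Agent.helper80.EN
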